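import Mathlib
import Pool.Agent.V11170.SemiBaxter2

set_option autoImplicit false

namespace Pool.Agent.Results.MP_5aad23_co.Equinumerous

open Pool.Agent.V11170.SemiBaxter

/-- The number of weak ascents within the first `m` entries of `a`. -/
noncomputable def wasc {n : ℕ} (a : Fin n → ℕ) (m : ℕ) : ℕ :=
  {j : ℕ | ∃ h : j + 1 < n, j + 1 < m ∧ a ⟨j, Nat.lt_of_succ_lt h⟩ ≤ a ⟨j + 1, h⟩}.ncard

/-- Weak ascent sequences: the first entry is `0`, and every later entry is at most one more than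
the number of weak ascents of the entries before it. -/
def IsWeakAscent {n : ℕ} (a : Fin n → ℕ) : Prop :=
  ∀ i : Fin n, ((i : ℕ) = 0 → a i = 0) ∧ (0 < (i : ℕ) → a i ≤ 1 + wasc a i)

/-- The sequence avoids the pattern 210. -/
def Avoids210 {n : ℕ} (a : Fin n → ℕ) : Prop :=
  ∀ i j k : Fin n, i < j → j < k → ¬ (a j < a i ∧ a k < a j)

/-- The number of weak ascent sequences of length `n` avoiding 210. -/
noncomputable def w210 (n : ℕ) : ℕ :=
  Nat.card {a : Fin n → ℕ // IsWeakAscent a ∧ Avoids210 a}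

/-- The permutation avoids the vincular pattern 2-41-3. -/
def Avoids2413 {n : ℕ} (π : Equiv.Perm (Fin n)) : Prop :=
  ∀ i j l k : Fin n, i < j → (l : ℕ) = j + 1 → l < k →
    ¬ (π l < π i ∧ π i < π k ∧ π k < π j)

/-- The number of permutations of length `n` avoiding 2-41-3. -/
noncomputable def v2413 (n : ℕ) : ℕ :=
  Nat.card {π : Equiv.Perm (Fin n) // Avoids2413 π}

theorem wasc_eq {n : ℕ} (a : Fin n → ℕ) (m : ℕ) (hm : m < n) :
    wasc a (m + 1) = wa m (ex a) := by
  classical
  unfold wasc wa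
  rw [← Set.ncard_coe_finset]
  congr 1
  ext j
  simp only [Set.mem_ofPred_eq, Finset.coe_filter, Finset.mem_range]
  constructor
  · rintro ⟨h1, h2, h3⟩
    rw [ex_of_lt a (by omega : j < n), ex_of_lt a h1]
    exact ⟨by omega, h3⟩
  · rintro ⟨h1, h2⟩
    rw [ex_of_lt a (by omega : j < n), ex_of_lt a (by omega : j + 1 < n)] at h2
    exact ⟨by omega, by omega, h2⟩

theorem isWeakAscent_iff {n : ℕ} (a : Fin (n + 1) → ℕ) :
    IsWeakAscent a ↔ IsWA n (ex a) := by
  unfold IsWeakAscent IsWA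
  constructor
  · intro h
    constructor
    · rw [ex_of_lt a (by omega : 0 < n + 1)]
      exact (h ⟨0, by omega⟩).1 rfl
    · intro i hi
      rw [ex_of_lt a (by omega : i + 1 < n + 1), ← wasc_eq a i (by omega)]
      exact (h ⟨i + 1, by omega⟩).2 (Nat.succ_pos i)
  · rintro ⟨h0, h1⟩ i
    constructor
    · intro hi
      rw [ex_of_lt a (by omega : 0 < n + 1)] at h0
      have : i = ⟨0, by omega⟩ := Fin.ext hi
      rw [this]
      exact h0
    · intro hi
      obtain ⟨j, hj⟩ : ∃ j, (i : ℕ) = j + 1 := ⟨(i : ℕ) - 1, by omega⟩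
      have h2 := h1 j (by omega)
      have h3 : i = ⟨j + 1, by omega⟩ := Fin.ext hj
      rw [ex_of_lt a (by omega : j + 1 < n + 1), ← wasc_eq a j (by omega)] at h2
      rw [h3]
      exact h2

theorem avoids210_iff {n : ℕ} (a : Fin n → ℕ) : Avoids210 a ↔ Av210 n (ex a) := by
  constructor
  · intro h i j k hij hjk hk
    rw [ex_of_lt a (by omega : i < n), ex_of_lt a (by omega : j < n), ex_of_lt a hk]
    have := h ⟨i, by omega⟩ ⟨j, by omega⟩ ⟨k, hk⟩ hij hjk
    exact fun h' => this ⟨h'.2, h'.1⟩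
  · intro h i j k hij hjk
    have := h i j k hij hjk k.is_lt
    rw [ex_apply, ex_apply, ex_apply] at this
    exact fun h' => this ⟨h'.2, h'.1⟩

theorem w210_eq (n : ℕ) : w210 (n + 1) = SB n (fun _ _ => 1) := by
  classical
  rw [← card_W]
  unfold w210
  rw [← Nat.card_eq_finsetCard]
  apply Nat.card_congr
  apply Equiv.subtypeEquivRight
  intro a
  rw [Finset.mem_filter, isWeakAscent_iff, avoids210_iff]
  constructor
  · intro h
    refine ⟨?_, h⟩
    rw [mem_T]
    intro i
    by_cases hi : (i : ℕ) = 0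
    · have h0 := h.1.1
      rw [ex_of_lt a (by omega : 0 < n + 1)] at h0
      have h1 : i = ⟨0, by omega⟩ := Fin.ext hi
      rw [h1, h0]
    · obtain ⟨j, hj⟩ : ∃ j, (i : ℕ) = j + 1 := ⟨(i : ℕ) - 1, by omega⟩
      have h2 := h.1.2 j (by omega)
      have h3 := wa_le j (ex a)
      rw [← hj, ex_apply] at h2
      omega
  · exact fun h => h.2

theorem avoids2413_iff {n : ℕ} (π : Equiv.Perm (Fin n)) : Avoids2413 π ↔ AvV n (exP π) := by
  constructor
  · intro h a b d hab hbd hd
    rw [exP_of_lt π (by omega : a < n), exP_of_lt π (by omega : b < n), exP_of_lt π hd,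
      exP_of_lt π (by omega : b + 1 < n)]
    exact h ⟨a, by omega⟩ ⟨b, by omega⟩ ⟨b + 1, by omega⟩ ⟨d, hd⟩ hab rfl hbd
  · intro h i j l k hij hl hlk
    have h1 := h i j k hij (by omega) k.is_lt
    rw [← hl, exP_of_lt π i.is_lt, exP_of_lt π j.is_lt, exP_of_lt π l.is_lt,
      exP_of_lt π k.is_lt] at h1
    exact h1

theorem v2413_eq (n : ℕ) : v2413 (n + 1) = SB n (fun _ _ => 1) := by
  classical
  rw [← card_V]
  unfold v2413
  rw [Nat.card_eq_fintype_card, Fintype.card_subtype]
  congr 1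
  ext π
  simp only [Finset.mem_filter, Finset.mem_univ, true_and]
  exact avoids2413_iff π

/-- Weak ascent sequences avoiding 210 are equinumerous with permutations avoiding 2-41-3. -/
theorem result (n : ℕ) (hn : 1 ≤ n) : w210 n = v2413 n := by
  obtain ⟨m, rfl⟩ : ∃ m, n = m + 1 := ⟨n - 1, by omega⟩
  rw [w210_eq, v2413_eq]

end Pool.Agent.Results.MP_5aad23_co.Equinumerous
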